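import Pool.Agent.Y560.BE.All

/-!
# Borel versus Baire measurable labelling problems on groups containing a copy of `ℤ²`

For every `n ≥ 2` the classes `BAIRE(ℤⁿ)` and `BOREL(ℤⁿ)` are different.  More generally let `Γ` be
any countable group, written additively and not assumed to be commutative, with commuting elements
`u`, `v` that generate a free abelian group of rank two.  There is one locally checkable labelling
problem in `BAIRE(Γ)` such that a free probability measure preserving Borel action of `Γ` has a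
measurable labelling if and only if some measurable set is invariant under `v` and is mapped to its
complement by `u`, up to null sets.  Some free probability measure preserving Borel actions on
standard Borel spaces have no such set, so the problem is neither in `BOREL(Γ)` nor in
`MEASURE(Γ)`, nor in the larger class where only invariant probability measures are considered.
-/

set_option autoImplicit false

namespace Pool.Agent.Results.MP_68d169_lc.GroupsContainingZSquared

open MeasureTheory Pool.Agent.W927.BM Pool.Agent.Y560.BE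

/-- `BAIRE(ℤⁿ) ≠ BOREL(ℤⁿ)` for all `n ≥ 2`; and the same for every countable group containing a copy
of `ℤ²`, with one problem whose measurable solvability for free probability measure preserving
actions is characterised. -/
theorem result :
    (∀ n : ℕ, 2 ≤ n → ∃ P : LCLP (Fin n → ℤ), P.InBaire ∧ ¬ P.InMeasure ∧ ¬ P.InBorel) ∧
    ∀ (Γ : Type) [AddGroup Γ] [Countable Γ] (u v : Γ), u + v = v + u →
      (∀ t x : ℤ, t • u + x • v = 0 → t = 0 ∧ x = 0) →
      ∃ P : LCLP Γ, P.InBaire ∧ ¬ P.InMeasure ∧ ¬ P.InBorel ∧ ¬ InPMP P ∧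
        ∀ (X : Type) [MeasurableSpace X] (a : Γ → X → X), FreeBorel a →
          ∀ (μ : Measure X), IsProbabilityMeasure μ → (∀ g, MeasurePreserving (a g) μ μ) →
          ((∃ f : X → Fin P.k, (∀ i, NullMeasurableSet (f ⁻¹' {i}) μ) ∧ P.IsLabelling a f) ↔
            ∃ E : Set X, MeasurableSet E ∧ a v ⁻¹' E =ᵐ[μ] E ∧ a u ⁻¹' E =ᵐ[μ] Eᶜ) := by
  have key : ∀ (Γ : Type) [AddGroup Γ] [Countable Γ] (u v : Γ), u + v = v + u →
      (∀ t x : ℤ, t • u + x • v = 0 → t = 0 ∧ x = 0) →
      ∃ P : LCLP Γ, P.InBaire ∧ ¬ P.InMeasure ∧ ¬ P.InBorel ∧ ¬ InPMP P ∧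
        ∀ (X : Type) [MeasurableSpace X] (a : Γ → X → X), FreeBorel a →
          ∀ (μ : Measure X), IsProbabilityMeasure μ → (∀ g, MeasurePreserving (a g) μ μ) →
          ((∃ f : X → Fin P.k, (∀ i, NullMeasurableSet (f ⁻¹' {i}) μ) ∧ P.IsLabelling a f) ↔
            ∃ E : Set X, MeasurableSet E ∧ a v ⁻¹' E =ᵐ[μ] E ∧ a u ⁻¹' E =ᵐ[μ] Eᶜ) := by
    intro Γ _ _ u v hc hf
    obtain ⟨P, h1, h2, h3⟩ := main (u := u) (v := v) ⟨hc, hf⟩
    have h4 : ¬ P.InMeasure := fun h => h2 fun X _ _ a ha μ hμ _ => h X a ha μ hμ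
    refine ⟨P, h1, h4, fun h => h4 fun X _ _ a ha μ _ => ?_, h2, h3⟩
    obtain ⟨f, hf, hP⟩ := h X a ha
    exact ⟨f, fun i => (hf (measurableSet_singleton i)).nullMeasurableSet, hP⟩
  refine ⟨fun n hn => ?_, key⟩
  obtain ⟨P, h1, h2, h3, -⟩ := key (Fin n → ℤ) (Pi.single ⟨0, by omega⟩ 1)
    (Pi.single ⟨1, by omega⟩ 1) (add_comm _ _) (by
      intro t x h
      have h1 := congrFun h ⟨0, by omega⟩
      have h2 := congrFun h ⟨1, by omega⟩
      simp [Pi.single_apply] at h1 h2
      exact ⟨h1, h2⟩)
  exact ⟨P, h1, h2, h3⟩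

end Pool.Agent.Results.MP_68d169_lc.GroupsContainingZSquared
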